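import Pool.Agent.PRT.StmtsA

/-! Row DSP of squad PRT: the displacement lemma. -/

set_option autoImplicit false

namespace Pool.Agent.PRT.H59

open Set MeasureTheory
open scoped ContDiff

theorem vol_ball (z : E) (r : ℝ) (hr : 0 ≤ r) :
    (volume (Metric.ball z r)).toReal = (2 * r) ^ 2 := by
  have h : Metric.ball z r = Metric.ball z.1 r ×ˢ Metric.ball z.2 r := by
    rw [ball_prod_same]
  rw [h, Measure.volume_eq_prod, Measure.prod_prod, ENNReal.toReal_mul, Real.volume_ball,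
    Real.volume_ball, ENNReal.toReal_ofReal (by linarith)]
  ring

theorem it_pow (g : E → E) (G : E ≃ₜ E) (m : ℕ) (h : ∀ z, G z = g^[m] z) (j : ℕ) (z : E) :
    (G ^ j) z = g^[m * j] z := by
  induction j generalizing z with
  | zero => simp
  | succ j ih =>
    have e1 : (G ^ (j + 1)) z = (G ^ j) (G z) := by
      rw [pow_succ]; rfl
    rw [e1, ih, h, ← Function.iterate_add_apply, Nat.mul_succ]

theorem cd_it {g : E → E} (h : ContDiff ℝ ∞ g) (m : ℕ) : ContDiff ℝ ∞ (g^[m]) := by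
  induction m with
  | zero => exact contDiff_id
  | succ m ih =>
    rw [Function.iterate_succ]
    exact ih.comp h

theorem floor_half (x : ℝ) (hx : 1 ≤ x) : 1 ≤ ⌊x⌋₊ ∧ (⌊x⌋₊ : ℝ) ≤ x ∧ x ≤ 2 * (⌊x⌋₊ : ℝ) := by
  have h1 : 1 ≤ ⌊x⌋₊ := Nat.one_le_floor_iff x |>.2 hx
  have h2 : (⌊x⌋₊ : ℝ) ≤ x := Nat.floor_le (by linarith)
  have h3 : x < ⌊x⌋₊ + 1 := Nat.lt_floor_add_one x
  have h4 : (1 : ℝ) ≤ ⌊x⌋₊ := by exact_mod_cast h1
  exact ⟨h1, h2, by linarith⟩

/-- packing -/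
theorem pack (mpv : MpvStmt) (g : E → E) (v : E) (C : ℝ) (hL : Lf g v C) (m M : ℕ)
    (G : E ≃ₜ E) (hG : ∀ z, G z = g^[m] z) (z0 : E) (r ρ : ℝ) (hr : 0 < r) (hρ : 0 < ρ)
    (hfree : ∀ k : ℕ, 1 ≤ k → ∀ z ∈ Metric.ball z0 r, (G ^ k) z ∉ Metric.ball z0 r)
    (hin : ∀ j < M, ∀ z ∈ Metric.ball z0 r, (G ^ j) z ∈ Metric.ball z0 ρ) :
    (M : ℝ) * r ^ 2 ≤ ρ ^ 2 := by
  set B := Metric.ball z0 r with hB
  have hvol : ∀ j : ℕ, volume ((G ^ j) '' B) = volume B := by
    intro j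
    have e : (fun z => (G ^ j) z) = g^[m * j] := by
      funext z
      exact it_pow g G m hG j z
    have := mpv g v C hL (m * j) B Metric.isOpen_ball.measurableSet
    rw [← e] at this
    exact this
  have hmeas : ∀ j : ℕ, MeasurableSet ((G ^ j) '' B) := fun j =>
    ((G ^ j).isOpenMap _ Metric.isOpen_ball).measurableSet
  have hdis : Pairwise (Function.onFun Disjoint fun j : ℕ => (G ^ j) '' B) := by
    have key : ∀ i k : ℕ, 1 ≤ k → Disjoint ((G ^ i) '' B) ((G ^ (i + k)) '' B) := by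
      intro i k hk
      rw [Set.disjoint_left]
      rintro x ⟨a, ha, rfl⟩ ⟨b, hb, hab⟩
      have h1 : (G ^ (i + k)) b = (G ^ i) ((G ^ k) b) := by rw [pow_add]; rfl
      rw [h1] at hab
      have h2 := (G ^ i).injective hab
      exact hfree k hk b hb (h2 ▸ ha)
    intro i j hij
    rcases lt_or_gt_of_ne hij with h | h
    · obtain ⟨k, rfl⟩ := Nat.exists_eq_add_of_lt h
      exact key i (k + 1) (by omega)
    · obtain ⟨k, rfl⟩ := Nat.exists_eq_add_of_lt h
      exact (key j (k + 1) (by omega)).symm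
  have hsub : (⋃ j ∈ Finset.range M, (G ^ j) '' B) ⊆ Metric.ball z0 ρ := by
    intro x hx
    simp only [Set.mem_iUnion, Finset.mem_range] at hx
    obtain ⟨j, hj, z, hz, rfl⟩ := hx
    exact hin j hj z hz
  have hsum : volume (⋃ j ∈ Finset.range M, (G ^ j) '' B) = (M : ENNReal) * volume B := by
    rw [measure_biUnion_finset (fun i _ j _ hij => hdis hij) (fun j _ => hmeas j)]
    rw [Finset.sum_congr rfl (fun j _ => hvol j), Finset.sum_const, Finset.card_range,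
      nsmul_eq_mul]
  have hle := measure_mono (μ := volume) hsub
  rw [hsum] at hle
  have hfin : volume (Metric.ball z0 ρ) ≠ ⊤ := measure_ball_lt_top.ne
  have h5 := ENNReal.toReal_mono hfin hle
  rw [ENNReal.toReal_mul, vol_ball z0 r hr.le, vol_ball z0 ρ hρ.le, ENNReal.toReal_natCast] at h5
  nlinarith

theorem dsp (frb : FrbStmt) (hmf : HmfStmt) (mpv : MpvStmt) : DspStmt := by
  intro g v C hL hv m hm hmv Λ hΛ hd z0
  have hC : 0 ≤ C := by
    have := hL.dev 0 z0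
    simpa using this
  have hvp : 0 < ‖v‖ := norm_pos_iff.2 hv
  have hmp : (0 : ℝ) < m := by exact_mod_cast hm
  have hx : 0 < (m : ℝ) * ‖v‖ := mul_pos hmp hvp
  obtain ⟨G, hG, hH⟩ := hmf g v C hL hv m hm
  set s := Real.sqrt (m * ‖v‖) with hs
  have hs0 : 0 ≤ s := Real.sqrt_nonneg _
  have hs2 : s ^ 2 = m * ‖v‖ := Real.sq_sqrt hx.le
  set D := ‖g^[m] z0 - z0‖ with hD
  have hdev : ∀ (j : ℕ) (z : E), ‖g^[m * j] z - z‖ ≤ C + j * (m * ‖v‖) := by
    intro j z
    have h1 := hL.dev (m * j) z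
    have h2 : g^[m * j] z - z = (g^[m * j] z - z - ((m * j : ℕ) : ℝ) • v) + ((m * j : ℕ) : ℝ) • v := by
      abel
    rw [h2]
    refine (norm_add_le _ _).trans ?_
    rw [norm_smul, Real.norm_of_nonneg (by positivity)]
    have e : ((m * j : ℕ) : ℝ) * ‖v‖ = j * (m * ‖v‖) := by push_cast; ring
    rw [e]
    linarith
  have hD1 : D ≤ 1 + C := by
    have := hdev 1 z0
    rw [mul_one] at this
    simp only [Nat.cast_one, one_mul] at this
    linarith
  rcases eq_or_lt_of_le (norm_nonneg (g^[m] z0 - z0)) with h0 | h0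
  · rw [← hD] at h0
    rw [← h0]
    positivity
  rw [← hD] at h0
  set r := min (D / (1 + Λ)) 1 with hr
  have hr0 : 0 < r := lt_min (by positivity) one_pos
  have hr1 : r ≤ 1 := min_le_right _ _
  have hrD : r * (1 + Λ) ≤ D := by
    have := min_le_left (D / (1 + Λ)) 1
    rw [← hr, le_div_iff₀ (by linarith)] at this
    exact this
  -- the mean value inequality
  have hcd : ContDiff ℝ ∞ (g^[m]) := cd_it hL.sm m
  have hdf : Differentiable ℝ (g^[m]) := hcd.differentiable (by simp)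
  have hmv : ∀ z : E, ‖g^[m] z - g^[m] z0‖ ≤ Λ * ‖z - z0‖ := by
    intro z
    exact Convex.norm_image_sub_le_of_norm_fderiv_le (s := univ)
      (fun x _ => hdf x) (fun x _ => hd x) convex_univ (mem_univ _) (mem_univ _)
  have hfree0 : ∀ z ∈ Metric.ball z0 r, G z ∉ Metric.ball z0 r := by
    intro z hz hGz
    rw [mem_ball_iff_norm] at hz hGz
    rw [hG] at hGz
    have h1 := hmv z
    have h2 : D ≤ ‖g^[m] z - z0‖ + ‖g^[m] z - g^[m] z0‖ := by
      have e : g^[m] z0 - z0 = (g^[m] z - z0) - (g^[m] z - g^[m] z0) := by abel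
      rw [hD, e]
      exact norm_sub_le _ _
    have h3 : Λ * ‖z - z0‖ ≤ Λ * r := mul_le_mul_of_nonneg_left hz.le hΛ
    nlinarith
  have hfree := frb G ((m : ℝ) • v) C hH z0 r hfree0
  obtain ⟨f1, f2, f3⟩ := floor_half (1 / (m * ‖v‖)) (by
    rw [le_div_iff₀ hx]; linarith)
  set M := ⌊1 / ((m : ℝ) * ‖v‖)⌋₊ with hM
  have hMx : (M : ℝ) * (m * ‖v‖) ≤ 1 := by
    rw [le_div_iff₀ hx] at f2
    exact f2
  have hMy : 1 ≤ 2 * (M : ℝ) * (m * ‖v‖) := by
    rw [div_le_iff₀ hx] at f3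
    exact f3
  have hin : ∀ j < M, ∀ z ∈ Metric.ball z0 r, (G ^ j) z ∈ Metric.ball z0 (C + 2) := by
    intro j hj z hz
    rw [it_pow g G m hG]
    rw [mem_ball_iff_norm] at hz ⊢
    have h1 := hdev j z
    have h2 : g^[m * j] z - z0 = (g^[m * j] z - z) + (z - z0) := by abel
    have h3 : (j : ℝ) * (m * ‖v‖) ≤ M * (m * ‖v‖) :=
      mul_le_mul_of_nonneg_right (by exact_mod_cast hj.le) hx.le
    rw [h2]
    have h4 := norm_add_le (g^[m * j] z - z) (z - z0)
    linarith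
  have hp := pack mpv g v C hL m M G hG z0 r (C + 2) hr0 (by linarith) hfree hin
  have hq : r ≤ 2 * (C + 2) * s := by
    have h1 : r ^ 2 ≤ (2 * (C + 2) * s) ^ 2 := by
      have e : (2 * (C + 2) * s) ^ 2 = 4 * (C + 2) ^ 2 * (m * ‖v‖) := by
        rw [mul_pow, hs2]; ring
      rw [e]
      have h2 : r ^ 2 ≤ r ^ 2 * (2 * (M : ℝ) * (m * ‖v‖)) :=
        le_mul_of_one_le_right (by positivity) hMy
      have h3 : ((M : ℝ) * r ^ 2) * (m * ‖v‖) ≤ (C + 2) ^ 2 * (m * ‖v‖) :=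
        mul_le_mul_of_nonneg_right hp hx.le
      have h4 : 0 ≤ (C + 2) ^ 2 * (m * ‖v‖) := by positivity
      nlinarith
    exact le_of_sq_le_sq h1 (by positivity)
  have hC2 : 1 ≤ C + 2 := by linarith
  have hb : 2 * (C + 2) * s ≤ 2 * (C + 2) ^ 2 * s := by
    have : (C + 2) ≤ (C + 2) ^ 2 := by nlinarith
    exact mul_le_mul_of_nonneg_right (by linarith) hs0
  have hrhs : 0 ≤ 2 * (C + 2) ^ 2 * s := by positivity
  rcases le_total (D / (1 + Λ)) 1 with h | h
  · have e : r = D / (1 + Λ) := min_eq_left h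
    have h1 : D = (1 + Λ) * r := by
      rw [e]; field_simp
    calc D = (1 + Λ) * r := h1
      _ ≤ (1 + Λ) * (2 * (C + 2) ^ 2 * s) :=
        mul_le_mul_of_nonneg_left (hq.trans hb) (by linarith)
      _ = (1 + Λ) * (2 * (C + 2) ^ 2) * s := by ring
  · have e : r = 1 := min_eq_right h
    have h1 : 1 ≤ 2 * (C + 2) * s := e ▸ hq
    have h2 : D ≤ (C + 2) * (2 * (C + 2) * s) := by
      calc D ≤ C + 2 := by linarith
        _ = (C + 2) * 1 := by ring
        _ ≤ (C + 2) * (2 * (C + 2) * s) := mul_le_mul_of_nonneg_left h1 (by linarith)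
    calc D ≤ (C + 2) * (2 * (C + 2) * s) := h2
      _ = 1 * (2 * (C + 2) ^ 2 * s) := by ring
      _ ≤ (1 + Λ) * (2 * (C + 2) ^ 2 * s) := mul_le_mul_of_nonneg_right (by linarith) hrhs
      _ = (1 + Λ) * (2 * (C + 2) ^ 2) * s := by ring

end Pool.Agent.PRT.H59
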