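import Pool.Agent.PRT.StmtsC
import Pool.Agent.PRT.Kit

/-! Row BOO of squad PRT: the bootstrap. -/

set_option autoImplicit false

namespace Pool.Agent.PRT.H59

open Set MeasureTheory
open scoped ContDiff

theorem boo (dsp : DspStmt) (ipl : IplStmt) (_pbd : PbdStmt) (boa : BoaStmt) : BooStmt := by
  intro k N R hN hR
  obtain ⟨c, hc⟩ := ipl R
  refine ⟨(400 * ((c : ℝ) + 1)) ^ 2, ?_⟩
  intro g v C l hl hL hv hlN hCl hB
  have hc0 : (0 : ℝ) ≤ c := Nat.cast_nonneg c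
  have hl400 : 160000 * ((c : ℝ) + 1) ≤ l := by
    refine le_trans ?_ hl
    nlinarith
  have hlc : (400 * (c : ℝ)) ^ 2 ≤ l := by
    refine le_trans ?_ hl
    nlinarith
  have hl1 : (160000 : ℝ) ≤ l := by nlinarith
  have hlp : (0 : ℝ) < l := by linarith
  have hC : 0 ≤ C := by
    have := hL.dev 0 0
    simpa using this
  -- powers of δ
  set δ : ℝ := l⁻¹ with hδ
  have hδp : 0 < δ := inv_pos.2 hlp
  have hlδ : l * δ = 1 := mul_inv_cancel₀ hlp.ne'
  have hδ1 : δ ≤ 1 := inv_le_one_of_one_le₀ (by linarith)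
  have hlδn : ∀ n : ℕ, l ^ n * δ ^ n = 1 := by
    intro n
    rw [← mul_pow, hlδ, one_pow]
  set ε : ℝ := ‖v‖ with hε
  have hεδ : ε = δ ^ (2 * N) := by
    have h1 := hlδn (2 * N)
    have h2 : ε * (l ^ (2 * N) * δ ^ (2 * N)) = δ ^ (2 * N) := by
      rw [← mul_assoc, hlN, one_mul]
    rw [h1, mul_one] at h2
    exact h2
  have hsq : Real.sqrt ε = δ ^ N := by
    rw [hεδ, show 2 * N = N * 2 from Nat.mul_comm _ _, pow_mul]
    exact Real.sqrt_sq (by positivity)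
  have hε1 : ε ≤ 1 := by
    rw [hεδ]
    exact pow_le_one₀ hδp.le hδ1
  -- the function φ
  have sφ : ContDiff ℝ ∞ (fun z => g z - z) := hL.sm.sub contDiff_id
  have hR1 : 1 ≤ R := by omega
  have hBφ : Bm R (2 * l) (fun z => g z - z) :=
    (hB.sub (bm_id R) hL.sm contDiff_id).mono le_rfl (by linarith)
  have hC3 : (C + 2) ^ 2 ≤ 9 * l ^ 2 := by nlinarith
  -- step 1
  have hv0 : v ≠ 0 := norm_pos_iff.1 hv
  have hA0 : ∀ z, ‖g z - z‖ ≤ 36 * l ^ 3 * δ ^ N := by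
    intro z
    have h1 := dsp g v C hL hv0 1 le_rfl (by rw [Nat.cast_one, one_mul]; exact hε1) l hlp.le
      (by
        intro z
        rw [Function.iterate_one]
        exact hB.fderiv_le hR1 z) z
    rw [Function.iterate_one, Nat.cast_one, one_mul, ← hε, hsq] at h1
    refine h1.trans ?_
    have h2 : (1 + l) * (2 * (C + 2) ^ 2) ≤ (2 * l) * (2 * (9 * l ^ 2)) := by
      have : 1 + l ≤ 2 * l := by linarith
      have h3 : 0 ≤ 2 * (C + 2) ^ 2 := by positivity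
      exact mul_le_mul this (by linarith) h3 (by linarith)
    calc (1 + l) * (2 * (C + 2) ^ 2) * δ ^ N ≤ (2 * l) * (2 * (9 * l ^ 2)) * δ ^ N :=
          mul_le_mul_of_nonneg_right h2 (by positivity)
      _ = 36 * l ^ 3 * δ ^ N := by ring
  have hBd : Bd R (max (36 * l ^ 3 * δ ^ N) (2 * l)) (fun z => g z - z) := by
    rw [bd_iff]
    exact ⟨fun z => (hA0 z).trans (le_max_left _ _), hBφ.mono le_rfl (le_max_right _ _)⟩
  have hint : ∀ A : ℝ, (∀ z, ‖g z - z‖ ≤ A) → ∀ i ≤ R, ∀ z,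
      ‖iteratedFDeriv ℝ i (fun z => g z - z) z‖ ≤ l ^ i * (c * (A + δ ^ R * (2 * l))) := by
    intro A hA i hi z
    have h1 := hc E (fun z => g z - z) A (2 * l) δ _ sφ hBd hδp hA
      (fun z => hBφ R hR1 le_rfl z) i hi z
    have h2 := mul_le_mul_of_nonneg_left h1 (pow_nonneg hlp.le i)
    rw [← mul_assoc, hlδn i, one_mul] at h2
    exact h2
  have hfd : ∀ z, ‖fderiv ℝ (fun z => g z - z) z‖ =
      ‖iteratedFDeriv ℝ 1 (fun z => g z - z) z‖ := by
    intro z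
    rw [← norm_iteratedFDeriv_fderiv, norm_iteratedFDeriv_zero]
  set a1 : ℝ := ⨆ z : E, ‖fderiv ℝ (fun z => g z - z) z‖ with ha1
  have hbdd : BddAbove (range fun z : E => ‖fderiv ℝ (fun z => g z - z) z‖) := by
    refine ⟨2 * l, ?_⟩
    rintro x ⟨z, rfl⟩
    exact hBφ.fderiv_le hR1 z
  have hle1 : ∀ z, ‖fderiv ℝ (fun z => g z - z) z‖ ≤ a1 := fun z => le_ciSup hbdd z
  have hsup : ∀ M : ℝ, (∀ z, ‖fderiv ℝ (fun z => g z - z) z‖ ≤ M) → a1 ≤ M := fun M h =>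
    ciSup_le h
  have ha10 : 0 ≤ a1 := (norm_nonneg _).trans (hle1 0)
  -- small powers
  have hδR : ∀ j m : ℕ, m + j ≤ R → l ^ j * δ ^ R ≤ δ ^ m := by
    intro j m hj
    have h1 : δ ^ R ≤ δ ^ (m + j) := pow_le_pow_of_le_one hδp.le hδ1 hj
    calc l ^ j * δ ^ R ≤ l ^ j * δ ^ (m + j) := mul_le_mul_of_nonneg_left h1 (by positivity)
      _ = δ ^ m * (l ^ j * δ ^ j) := by rw [pow_add]; ring
      _ = δ ^ m := by rw [hlδn j, mul_one]
  have hcδ : 160000 * ((c : ℝ) + 1) * δ ≤ 1 := by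
    calc 160000 * ((c : ℝ) + 1) * δ ≤ l * δ := mul_le_mul_of_nonneg_right hl400 hδp.le
      _ = 1 := hlδ
  have ha1s : a1 ≤ 1 / 8 := by
    apply hsup
    intro z
    rw [hfd]
    refine (hint _ hA0 1 hR1 z).trans ?_
    have e : l ^ 1 * (c * (36 * l ^ 3 * δ ^ N + δ ^ R * (2 * l))) =
        c * (36 * (l ^ 4 * δ ^ N) + 2 * (l ^ 2 * δ ^ R)) := by ring
    rw [e]
    have h1 : l ^ 4 * δ ^ N ≤ δ := by
      have : δ ^ N ≤ δ ^ (1 + 4) := pow_le_pow_of_le_one hδp.le hδ1 (by omega)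
      calc l ^ 4 * δ ^ N ≤ l ^ 4 * δ ^ (1 + 4) := mul_le_mul_of_nonneg_left this (by positivity)
        _ = δ ^ 1 * (l ^ 4 * δ ^ 4) := by rw [pow_add]; ring
        _ = δ := by rw [hlδn 4, mul_one, pow_one]
    have h2 : l ^ 2 * δ ^ R ≤ δ := by
      have := hδR 2 1 (by omega)
      rwa [pow_one] at this
    calc (c : ℝ) * (36 * (l ^ 4 * δ ^ N) + 2 * (l ^ 2 * δ ^ R)) ≤ c * (36 * δ + 2 * δ) := by
          apply mul_le_mul_of_nonneg_left _ hc0
          linarith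
      _ ≤ 1 / 8 := by nlinarith
  have hε8 : ε ≤ 1 / 8 := by
    rw [hεδ]
    have h1 : δ ^ (2 * N) ≤ δ ^ 1 := pow_le_pow_of_le_one hδp.le hδ1 (by omega)
    rw [pow_one] at h1
    have : δ ≤ 1 / 8 := by nlinarith
    linarith
  have hεε : ε ^ 2 = δ ^ (4 * N) := by
    rw [hεδ, ← pow_mul]
    congr 1
    ring
  -- step 2
  have hboa : ∀ z, ‖g z - z‖ ≤ 198 * l ^ 2 * Real.sqrt (max a1 ε * ε) := by
    intro z
    have h1 := boa g v C (max a1 ε) hL hv (le_max_right _ _) (max_le ha1s hε8)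
      (fun z => (hle1 z).trans (le_max_left _ _)) z
    refine h1.trans ?_
    refine mul_le_mul_of_nonneg_right ?_ (Real.sqrt_nonneg _)
    nlinarith
  -- step 3
  have hl7 : 1 ≤ l ^ 7 := one_le_pow₀ (by linarith)
  have key : max a1 ε ≤ l ^ 7 * ε := by
    rcases le_or_gt a1 ε with h | h
    · rw [max_eq_right h]
      exact le_mul_of_one_le_left hv.le hl7
    · rw [max_eq_left h.le]
      rw [max_eq_left h.le] at hboa
      have h1 : a1 ≤ l ^ 1 * (c * (198 * l ^ 2 * Real.sqrt (a1 * ε) + δ ^ R * (2 * l))) := by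
        apply hsup
        intro z
        rw [hfd]
        exact hint _ hboa 1 hR1 z
      have h2 : l ^ 2 * δ ^ R ≤ δ * ε := by
        have h3 := hδR 2 (1 + 2 * N) (by omega)
        rw [pow_add, pow_one, ← hεδ] at h3
        exact h3
      have h4 : (c : ℝ) * (2 * (l ^ 2 * δ ^ R)) ≤ a1 / 2 := by
        have h5 : (c : ℝ) * (2 * (l ^ 2 * δ ^ R)) ≤ c * (2 * (δ * ε)) := by
          apply mul_le_mul_of_nonneg_left _ hc0
          linarith
        have h6 : (c : ℝ) * (2 * (δ * ε)) = (2 * c * δ) * ε := by ring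
        have h7 : 2 * (c : ℝ) * δ ≤ 1 / 2 := by nlinarith
        have h8 : (2 * (c : ℝ) * δ) * ε ≤ 1 / 2 * ε := mul_le_mul_of_nonneg_right h7 hv.le
        linarith
      set s := Real.sqrt (a1 * ε) with hs
      have hs2 : s ^ 2 = a1 * ε := Real.sq_sqrt (mul_nonneg ha10 hv.le)
      have hs0 : 0 ≤ s := Real.sqrt_nonneg _
      have h5 : a1 ≤ 396 * c * l ^ 3 * s := by
        have e : l ^ 1 * (c * (198 * l ^ 2 * s + δ ^ R * (2 * l))) =
          198 * c * l ^ 3 * s + c * (2 * (l ^ 2 * δ ^ R)) := by ring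
        rw [e] at h1
        linarith
      have ha1p : 0 < a1 := hv.trans h
      have h6 : a1 ^ 2 ≤ (396 * c) ^ 2 * l ^ 6 * (a1 * ε) := by
        have : a1 ^ 2 ≤ (396 * c * l ^ 3 * s) ^ 2 := pow_le_pow_left₀ ha10 h5 2
        calc a1 ^ 2 ≤ (396 * c * l ^ 3 * s) ^ 2 := this
          _ = (396 * c) ^ 2 * l ^ 6 * s ^ 2 := by ring
          _ = (396 * c) ^ 2 * l ^ 6 * (a1 * ε) := by rw [hs2]
      have h7 : a1 ≤ (396 * c) ^ 2 * l ^ 6 * ε := by
        have : a1 * a1 ≤ a1 * ((396 * c) ^ 2 * l ^ 6 * ε) := by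
          calc a1 * a1 = a1 ^ 2 := by ring
            _ ≤ (396 * c) ^ 2 * l ^ 6 * (a1 * ε) := h6
            _ = a1 * ((396 * c) ^ 2 * l ^ 6 * ε) := by ring
        exact le_of_mul_le_mul_left this ha1p
      have h8 : (396 * (c : ℝ)) ^ 2 ≤ l := by
        refine le_trans ?_ hlc
        nlinarith
      calc a1 ≤ (396 * c) ^ 2 * l ^ 6 * ε := h7
        _ ≤ l * l ^ 6 * ε := by gcongr
        _ = l ^ 7 * ε := by ring
  have hφ : ∀ z, ‖g z - z‖ ≤ 198 * ε * l ^ 6 := by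
    intro z
    refine (hboa z).trans ?_
    have h1 : Real.sqrt (max a1 ε * ε) ≤ l ^ 4 * ε := by
      rw [Real.sqrt_le_left (by positivity)]
      calc max a1 ε * ε ≤ (l ^ 7 * ε) * ε := mul_le_mul_of_nonneg_right key hv.le
        _ ≤ (l ^ 8 * ε) * ε := by
          have : l ^ 7 ≤ l ^ 8 := pow_le_pow_right₀ (by linarith) (by norm_num)
          gcongr
        _ = (l ^ 4 * ε) ^ 2 := by ring
    calc 198 * l ^ 2 * Real.sqrt (max a1 ε * ε) ≤ 198 * l ^ 2 * (l ^ 4 * ε) :=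
          mul_le_mul_of_nonneg_left h1 (by positivity)
      _ = 198 * ε * l ^ 6 := by ring
  -- step 4
  refine ⟨hL, hv, hlN, by linarith, hCl, ?_⟩
  intro i hi z
  refine (hint _ hφ i (by omega) z).trans ?_
  have h1 : l * δ ^ R ≤ ε := by
    have h3 := hδR 1 (2 * N) (by omega)
    rw [pow_one, ← hεδ] at h3
    exact h3
  have h2 : (198 * ε * l ^ 6 + δ ^ R * (2 * l)) ≤ 200 * ε * l ^ 6 := by
    have h3 : δ ^ R * (2 * l) ≤ 2 * ε := by linarith
    have h4 : ε ≤ ε * l ^ 6 := le_mul_of_one_le_right hv.le (one_le_pow₀ (by linarith))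
    nlinarith
  have h3 : (c : ℝ) * 200 ≤ l ^ 2 := by nlinarith
  calc l ^ i * (c * (198 * ε * l ^ 6 + δ ^ R * (2 * l)))
      ≤ l ^ i * (c * (200 * ε * l ^ 6)) := by gcongr
    _ = (c * 200) * (ε * l ^ (i + 6)) := by rw [pow_add]; ring
    _ ≤ l ^ 2 * (ε * l ^ (i + 6)) := mul_le_mul_of_nonneg_right h3 (by positivity)
    _ = ε * l ^ (i + 8) := by rw [pow_add, pow_add]; ring

end Pool.Agent.PRT.H59
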